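import Pool.Agent.helper69.DH.SpecR2

/-!
# Project d2: (MP_5823cb_al), part R (routing), row rLD2: the main part of the load (helper33)
-/

set_option autoImplicit false

open Filter Topology MeasureTheory
open scoped commutatorElement

namespace Pool.Agent.helper90.DH

open Pool.Agent.helper64.D2

/-- The expansion of the inner sum of one level. -/
theorem rLD2_level (N : ℕ) (G Δ p φ : ℕ → ℝ) (η lam z T ε δ : ℝ) (hT : 0 < T) (hε : 0 ≤ ε) (hδ : 0 ≤ δ)
    (h1 : ∀ i < N, |G i - η - lam * (p i - z)| ≤ ε) (h2 : ∀ i < N, |p i - z + φ i / T| ≤ δ) (h3 : ∀ i < N, |Δ i| ≤ 8) :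
    |∑ i ∈ Finset.range N, G i * Δ i - (η * ∑ i ∈ Finset.range N, Δ i - (lam / T) * ∑ i ∈ Finset.range N, φ i * Δ i)| ≤
      N * (8 * (ε + |lam| * δ)) := by
  rw [Finset.mul_sum, Finset.mul_sum, ← Finset.sum_sub_distrib, ← Finset.sum_sub_distrib]
  refine (Finset.abs_sum_le_sum_abs _ _).trans ?_
  have : ∀ i ∈ Finset.range N, |G i * Δ i - (η * Δ i - lam / T * (φ i * Δ i))| ≤ 8 * (ε + |lam| * δ) := by
    intro i hi
    rw [Finset.mem_range] at hi
    have e : G i * Δ i - (η * Δ i - lam / T * (φ i * Δ i)) = ((G i - η - lam * (p i - z)) + lam * (p i - z + φ i / T)) * Δ i := by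
      field_simp
      ring
    rw [e, abs_mul]
    have h4 : |(G i - η - lam * (p i - z)) + lam * (p i - z + φ i / T)| ≤ ε + |lam| * δ := by
      refine (abs_add_le _ _).trans (add_le_add (h1 i hi) ?_)
      rw [abs_mul]
      exact mul_le_mul_of_nonneg_left (h2 i hi) (abs_nonneg _)
    calc |(G i - η - lam * (p i - z)) + lam * (p i - z + φ i / T)| * |Δ i| ≤ (ε + |lam| * δ) * 8 :=
          mul_le_mul h4 (h3 i hi) (abs_nonneg _) (by positivity)
      _ = 8 * (ε + |lam| * δ) := by ring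
  refine (Finset.sum_le_sum this).trans ?_
  simp

/-- The sum of the nonincreasing sequence. -/
theorem rLD2_mono (a : ℕ → ℝ) (h : ∀ s, a (s + 1) ≤ a s) (s0 n : ℕ) (hn : s0 ≤ n) :
    ∑ s ∈ Finset.Ico s0 n, |a (s + 1) - a s| = a s0 - a n := by
  induction n, hn using Nat.le_induction with
  | base => simp
  | succ n hn ih =>
    rw [Finset.sum_Ico_succ_top hn, ih, abs_of_nonpos (by linarith [h n])]
    ring

/-- rLD2: the main part of the load. -/
theorem rLD2 (hETA : rETA_stmt) (hSIG : rSIG_stmt) (hHOT : rHOT_stmt) (hBRN : rBRN_stmt) (hABL : rABL_stmt) : rLD2_stmt := by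
  intro P S hP D hD z X hX hz1 hz2 F hF n hn0 hnS hH hF4
  rcases Nat.eq_or_lt_of_le hn0 with h0 | h0
  · rw [← h0]
    simp
  have hq0 : (0 : ℝ) ≤ P.q := Nat.cast_nonneg _
  -- the sum of rsg
  have hcard : ∀ s < n, (rAc D.H (3 * 2 ^ 30 - 8) s z).card < 2 ^ 38 := by
    intro s hs
    refine ((hHOT P S hP D hD s (by omega)).1 z hz1 hz2 ?_).1
    intro t ht
    exact hH t (by omega)
  have hsg : ∑ s ∈ Finset.range n, rsg D.H s z ≤ 2 ^ 39 := hSIG D.H n z hcard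
  have hsg0 : ∀ s, 0 ≤ rsg D.H s z := fun s => (hETA D.H s z).1.2.2.2
  have hsg' : ∑ s ∈ Finset.Ico P.s0 n, rsg D.H s z ≤ 2 ^ 39 := by
    refine le_trans (Finset.sum_le_sum_of_subset_of_nonneg ?_ fun i _ _ => hsg0 i) hsg
    intro s hs
    rw [Finset.mem_Ico] at hs
    exact Finset.mem_range.2 hs.2
  have hsgS1 : ∀ s < n, s < P.S1 → rsg D.H s z = 0 := by
    intro s hs hs1
    have : rAc D.H (3 * 2 ^ 30 - 8) s z = ∅ := by
      unfold rAc
      refine Finset.filter_eq_empty_iff.2 ?_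
      intro t ht
      rw [Finset.mem_range] at ht
      have h2 : D.H t = ∅ := ((hD t (by omega)).1 (by omega)).1
      rw [h2]
      simp
    unfold rsg
    rw [this]
    simp
  choose lam hlam1 hlam2 using fun s => (hETA D.H s z).2.2.2
  -- the expansion of every level
  have hlev : ∀ s ∈ Finset.Ico P.s0 n,
      |∑ i ∈ Finset.range P.q, reta D.H s (rpt P s i (ci s (X i))) * (F (s + 1) (X i) - F s (X i)) -
        (reta D.H s z * (∑ i ∈ Finset.range P.q, F (s + 1) (X i) - ∑ i ∈ Finset.range P.q, F s (X i)) -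
          (lam s / 2 ^ s) * ∑ i ∈ Finset.range P.q, fr s (X i) * (F (s + 1) (X i) - F s (X i)))| ≤
        P.q * (8 * (375 / 2 ^ 60 + 16 / 2 ^ 30 * (9 / 4 / 2 ^ 27))) * rsg D.H s z := by
    intro s hs
    rw [Finset.mem_Ico] at hs
    have hB : ∀ i < P.q, |rpt P s i (ci s (X i)) - z + fr s (X i) / 2 ^ s| ≤ 9 / 4 / 2 ^ 27 / 2 ^ s ∧
        |rpt P s i (ci s (X i)) - z| ≤ 5 / 4 / 2 ^ s := by
      intro i hi
      have := (hBRN P S hP).2.2.1 s i z (X i) hs.1 (by omega) hi (hX i hi s hs.1 (by omega))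
      exact ⟨this.1, this.2.1⟩
    have h := rLD2_level P.q (fun i => reta D.H s (rpt P s i (ci s (X i)))) (fun i => F (s + 1) (X i) - F s (X i))
      (fun i => rpt P s i (ci s (X i))) (fun i => fr s (X i)) (reta D.H s z) (lam s) z (2 ^ s) (375 / 2 ^ 60 * rsg D.H s z)
      (9 / 4 / 2 ^ 27 / 2 ^ s) (by positivity) (mul_nonneg (by norm_num) (hsg0 s)) (by positivity)
      (fun i hi => (hlam2 s _ (hB i hi).2).1) (fun i hi => (hB i hi).1)
      (fun i hi => hF.1 (s + 1) s (by omega) (by omega) (by omega) (by omega) (X i))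
    rw [Finset.sum_sub_distrib] at h
    refine h.trans ?_
    have h5 : |lam s| * (9 / 4 / 2 ^ 27 / 2 ^ s) ≤ 16 / 2 ^ 30 * (9 / 4 / 2 ^ 27) * rsg D.H s z := by
      have e : |lam s| * (9 / 4 / 2 ^ 27 / 2 ^ s) = |lam s| / 2 ^ s * (9 / 4 / 2 ^ 27) := by ring
      rw [e]
      calc |lam s| / 2 ^ s * (9 / 4 / 2 ^ 27) ≤ 16 / 2 ^ 30 * rsg D.H s z * (9 / 4 / 2 ^ 27) :=
            mul_le_mul_of_nonneg_right (hlam1 s) (by norm_num)
        _ = 16 / 2 ^ 30 * (9 / 4 / 2 ^ 27) * rsg D.H s z := by ring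
    calc (P.q : ℝ) * (8 * (375 / 2 ^ 60 * rsg D.H s z + |lam s| * (9 / 4 / 2 ^ 27 / 2 ^ s)))
        ≤ P.q * (8 * (375 / 2 ^ 60 * rsg D.H s z + 16 / 2 ^ 30 * (9 / 4 / 2 ^ 27) * rsg D.H s z)) := by gcongr
      _ = P.q * (8 * (375 / 2 ^ 60 + 16 / 2 ^ 30 * (9 / 4 / 2 ^ 27))) * rsg D.H s z := by ring
  -- part I
  have hI : |∑ s ∈ Finset.Ico P.s0 n, reta D.H s z *
      (∑ i ∈ Finset.range P.q, F (s + 1) (X i) - ∑ i ∈ Finset.range P.q, F s (X i))| ≤ 2 * (P.q / 2 ^ 24) := by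
    have h := hABL (fun s => reta D.H s z) (fun s => ∑ i ∈ Finset.range P.q, F s (X i)) P.s0 n (2 * (P.q / 2 ^ 24)) h0 ?_
    · refine h.trans ?_
      have hm := rLD2_mono (fun s => reta D.H s z) (fun s => (hETA D.H s z).1.2.2.1) P.s0 (n - 1) (by omega)
      rw [hm, abs_of_nonneg (hETA D.H (n - 1) z).1.1]
      have h1 := (hETA D.H P.s0 z).1.2.1
      have h2 : (0 : ℝ) ≤ 2 * (P.q / 2 ^ 24) := by positivity
      nlinarith
    · intro s hs hsn
      have hb : ∀ s, P.s0 ≤ s → s ≤ n → |∑ i ∈ Finset.range P.q, F s (X i)| ≤ P.q / 2 ^ 24 := by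
        intro s hs hsn
        rcases Nat.eq_or_lt_of_le hs with h3 | h3
        · exact (hF4 s hs (by omega)).1
        · have := (hF4 (s - 1) (by omega) (by omega)).2.1
          rwa [show s - 1 + 1 = s by omega] at this
      have h4 := hb s hs hsn
      have h5 := hb P.s0 le_rfl (by omega)
      calc _ ≤ |∑ i ∈ Finset.range P.q, F s (X i)| + |∑ i ∈ Finset.range P.q, F P.s0 (X i)| := abs_sub _ _
        _ ≤ P.q / 2 ^ 24 + P.q / 2 ^ 24 := add_le_add h4 h5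
        _ = 2 * (P.q / 2 ^ 24) := by ring
  -- part II
  have hII : |∑ s ∈ Finset.Ico P.s0 n, (lam s / 2 ^ s) * ∑ i ∈ Finset.range P.q, fr s (X i) * (F (s + 1) (X i) - F s (X i))| ≤
      16 / 2 ^ 30 * 2 ^ 39 * (P.q / 2 ^ 24) := by
    refine (Finset.abs_sum_le_sum_abs _ _).trans ?_
    have : ∀ s ∈ Finset.Ico P.s0 n, |(lam s / 2 ^ s) * ∑ i ∈ Finset.range P.q, fr s (X i) * (F (s + 1) (X i) - F s (X i))| ≤
        16 / 2 ^ 30 * (P.q / 2 ^ 24) * rsg D.H s z := by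
      intro s hs
      rw [Finset.mem_Ico] at hs
      have h6 : |lam s / 2 ^ s| = |lam s| / 2 ^ s := by rw [abs_div, abs_of_pos (by positivity : (0 : ℝ) < 2 ^ s)]
      rw [abs_mul, h6]
      rcases lt_or_ge s P.S1 with h7 | h7
      · have h8 := hlam1 s
        rw [hsgS1 s hs.2 h7, mul_zero] at h8
        have h9 : |lam s| / 2 ^ s = 0 := le_antisymm h8 (by positivity)
        rw [h9, hsgS1 s hs.2 h7]
        simp
      · have h8 := (hF4 s hs.1 hs.2).2.2 h7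
        calc _ ≤ 16 / 2 ^ 30 * rsg D.H s z * (P.q / 2 ^ 24) :=
              mul_le_mul (hlam1 s) h8 (abs_nonneg _) (mul_nonneg (by norm_num) (hsg0 s))
          _ = 16 / 2 ^ 30 * (P.q / 2 ^ 24) * rsg D.H s z := by ring
    refine (Finset.sum_le_sum this).trans ?_
    rw [← Finset.mul_sum]
    calc (16 : ℝ) / 2 ^ 30 * ((P.q : ℝ) / 2 ^ 24) * ∑ s ∈ Finset.Ico P.s0 n, rsg D.H s z ≤ 16 / 2 ^ 30 * ((P.q : ℝ) / 2 ^ 24) * (2 : ℝ) ^ 39 :=
          mul_le_mul_of_nonneg_left hsg' (by positivity)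
      _ = 16 / 2 ^ 30 * 2 ^ 39 * ((P.q : ℝ) / 2 ^ 24) := by ring
  -- the errors
  have hE : |∑ s ∈ Finset.Ico P.s0 n, (∑ i ∈ Finset.range P.q, reta D.H s (rpt P s i (ci s (X i))) * (F (s + 1) (X i) - F s (X i)) -
        (reta D.H s z * (∑ i ∈ Finset.range P.q, F (s + 1) (X i) - ∑ i ∈ Finset.range P.q, F s (X i)) -
          (lam s / 2 ^ s) * ∑ i ∈ Finset.range P.q, fr s (X i) * (F (s + 1) (X i) - F s (X i))))| ≤
      P.q * (8 * (375 / 2 ^ 60 + 16 / 2 ^ 30 * (9 / 4 / 2 ^ 27))) * 2 ^ 39 := by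
    refine (Finset.abs_sum_le_sum_abs _ _).trans ((Finset.sum_le_sum hlev).trans ?_)
    rw [← Finset.mul_sum]
    gcongr
  rw [Finset.sum_sub_distrib, Finset.sum_sub_distrib] at hE
  have hfin := abs_le.1 hE
  have hIa := abs_le.1 hI
  have hIIa := abs_le.1 hII
  rw [abs_le]
  constructor
  · linarith [hfin.1, hfin.2, hIa.1, hIa.2, hIIa.1, hIIa.2]
  · linarith [hfin.1, hfin.2, hIa.1, hIa.2, hIIa.1, hIIa.2]

end Pool.Agent.helper90.DH
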